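import Mathlib
import Pool.Agent.Q64.HT.Main
import Pool.Agent.Q64.CT.Almost

/-!
# The standard conjecture of Hodge type for products with almost all abelian varieties

Let `g i` (`i` in a finite set `I`) be positive integers, `r` an integer smaller than all the `g i`
and `E` a number field.  For a prime power `q` let `S i` be the set of the characteristic
polynomials of Frobenius of the ordinary abelian varieties of dimension `g i` over the field with `q`
elements, or of all abelian varieties of dimension `g i`, or any set in between.  By Weil, Honda and
Tate its elements correspond to the isogeny classes, the first set contains `ordinaryWeilPolys q
(g i)`, and the second one is contained in `weilPolys q (g i)`.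

For all families `f i` in `S i` with the exception of a proportion `O (q ^ (-1 / 6) log q)`, the
constant depending only on `g`, `r` and `E`, the following holds for all `s > 0`, `Q = q ^ s`, all
abelian varieties `A` over the field with `Q` elements which are isogenous to products of powers of
abelian varieties coming from the field with `q` elements, with characteristic polynomials `f i`,
all ample divisors `D` on `A` (over the algebraic closure), **all** smooth projective varieties `Z`
over the field with `Q` elements such that the eigenvalues of Frobenius on the cohomology of `Z` and
their conjugates generate a group of rank at most `r` modulo the group of the numbers with a power in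
`E`, and **all** divisors `B` on `Z` (over the algebraic closure) which satisfy the hard Lefschetz
theorem, for instance the ample ones: **the standard conjecture of Hodge type holds for `A × Z` and
the divisor `D × Z + A × B`, in all codimensions, if and only if it holds for `Z` and `B`.** If `Z` is
a variety of dimension at most three it holds for `A × Z`, by the theorem quoted in the question.

For `r = 0` the assumption on the eigenvalues is: the eigenvalues of Frobenius and their conjugates
have powers in `E`.  If for instance `Z` is any given variety over the field with `q'` elements, one
can take for `E` the field generated by the eigenvalues of Frobenius and their conjugates, and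
applies the theorem to the powers `q` of `q'`.

Nothing else is assumed on `Z`: no conjecture of Lefschetz type `A` or `B`, no Tate conjecture, no
semisimplicity of Frobenius, no coincidence of homological and numerical equivalence. What is used of
`A` are known theorems (`IsPolarizedAbelian`): the cohomology is generated by `H^1`; Frobenius is
diagonalizable on `H^1` (Weil); the theorem of Tate on divisors; the positivity for the classes
generated by classes of divisors (Weil, Milne). That all classes of cycles on `A` are of this kind is a
part of what is proved.

The framework (`WeilCohomology`, `HardLefschetz`, `HodgeType`) is the one of the starting files
(`AlmostAllTimesVarieties` in this folder), where `A` is replaced by the members of families of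
varieties with large monodromy, without a rate. The starting files have the corresponding theorem for
the conjecture `D` and abelian varieties (MP_f569db_ag `AlmostAllProducts`, for `E = ℚ`), and not the
one for the conjecture of Hodge type.

The idea of the proof: by a sieve (helper521), which only uses the primes that split completely in
the Galois closure of `E` - these have positive density by the theorem of Chebotarev, formalized by
helper401 - almost all families are such that each pair `α`, `q / α` of roots can be exchanged by a
Galois automorphism which fixes all the other roots of all the `f i` and also all elements of `E`.
It follows that the classes of the cycles on `A × Z` are sums of products of classes of cycles on `A`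
and on `Z`, and that all classes of cycles on `A` are generated by classes of divisors. The rest is the
theory of Lefschetz of the starting files (TH132.A): the primitive classes on `A × Z` have components
in the deep strings of `Z`, and the form is positive on them.
-/

set_option autoImplicit false

namespace Pool.Agent.Results.MP_361a6f_ag.AlmostAllAbelianTimes

open Polynomial Pool.Agent.W521.Descent Pool.Agent.W521.Count Pool.Agent.W484.TB Pool.Agent.Q64.HT

/-- **The standard conjecture of Hodge type holds for `A × Z` if and only if it holds for `Z`, for
almost all abelian varieties `A` and all varieties `Z` of small Frobenius rank.** -/
theorem result {I : Type} [Fintype I] (g : I → ℕ) (r : ℕ) (hr : ∀ i, r < g i)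
    (E : IntermediateField ℚ ℂ) [FiniteDimensional ℚ E] :
    ∃ C : ℝ, ∀ q : ℕ, IsPrimePow q → ∀ S : I → Set ℤ[X],
      (∀ i, ordinaryWeilPolys q (g i) ⊆ S i ∧ S i ⊆ weilPolys q (g i)) →
      (∀ i, (S i).Finite ∧ (S i).Nonempty) ∧
      ({f : I → ℤ[X] | (∀ i, f i ∈ S i) ∧ ¬ HodgeTypeTimes (RootsOfRank E r) q f}.ncard : ℝ) ≤
        C * (Real.log q * (q : ℝ) ^ (-(1 / 6) : ℝ)) * ∏ i, ((S i).ncard : ℝ) :=
  Pool.Agent.Q64.CT.countA g r hr E (fun q f => HodgeTypeTimes (RootsOfRank E r) q f)
    fun _ hq x hx => hodgeTypeTimes_rank g E hq r hr x hx

end Pool.Agent.Results.MP_361a6f_ag.AlmostAllAbelianTimes
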