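import Mathlib
import Pool.Agent.Q70.FF.Fib
import Pool.Agent.Q70.FF.PDefs

/-!
# The standard conjecture of Hodge type for fourfolds: blow-ups, coverings, fibrations in curves

The first open case of the standard conjecture of Hodge type in positive characteristic is that of
the cycles of codimension two on a fourfold. Let `X` be a smooth projective fourfold over an
algebraically closed field `k` of any characteristic, with an ample divisor `D`. The numerical form
of the conjecture (`HodgeNum`) says that `z ^ 2 > 0` for every algebraic cycle `z` of codimension two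
such that `D z` is numerically trivial and `z` is not; the cohomological form (`HodgeHom`) says
that `z ^ 2 > 0` for every `z` such that the class of `D z` is zero and the class of `z` is not.

Say that a fourfold `Y` dominates `X` (`Dominates`) if there is a chain of fourfolds from `Y` to
`X`, each of which is the blow-up of the preceding one in a smooth point, curve or surface, or
is obtained from it by blowing down, or is covered by it (`Step`).

The theorem says that the numerical form of the conjecture holds for `X` and every polarization `D`
if it holds for `Y` and one polarization of `Y`, in particular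

* if `Y = X` (independence of the polarization), and conversely if the chain consists of blow-ups
  and blow-downs (which can be reversed);
* for all fourfolds `X` dominated by a projective line bundle over a threefold;
* for all fourfolds `X` dominated by a fibration in curves `f : Y → T` over a threefold such that
  `z ^ 2 ≥ 0` for all cycles `z` of codimension two with `f_* z` numerically trivial (for these
  `HodgeNum` is proved), and especially of Prym type: there is a surface `S` with an ample divisor
  `A` such that for all such `z` one has `z ^ 2 = - 2 y ^ 2` for a divisor `y` on `S` with `A y = 0`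
  (this is the structure of the algebraic classes on conic bundles, where `S` is the surface of the
  components of the singular fibres and `y` is anti-invariant under the involution of `S`).

If numerical and homological equivalence coincide for the 1-cycles on `X`, then for all these
`X` the cohomological form holds if and only if numerical and homological equivalence coincide in
codimension two.

For instance the conjecture for the product `S × S` of a surface with itself implies
the conjecture for the Hilbert scheme of two points of `S`, a quotient of degree two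
of the blow-up of `S × S` in the diagonal.

The varieties, morphisms and algebraic cycles are those of a class `𝒱` of smooth proper varieties
over `k` (the starting library `H914`); `W` is any Weil cohomology with coefficients of
characteristic zero. What is used about ample divisors is the Hodge index theorem
(`IsPolarization`, `IsSurfacePolarization`), and what is used about blow-ups, projective line bundles
and fibrations are the standard formulas listed in `Blowup`, `LineBundle`, `Fibration` and `Cover`.
No resolution of singularities, no Lefschetz theorem and no finiteness of the field are used.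
-/

set_option autoImplicit false

open CategoryTheory AlgebraicGeometry

universe u v

namespace Pool.Agent.Results.MP_361a6f_ag.BirationalFourfolds

open Pool.Agent.H914 Pool.Agent.H914.VarClass Pool.Agent.H914.VarClass.Obj Pool.Agent.Q70.FF

variable {k : Type u} [Field k] {𝒱 : VarClass k} {ops : CycleOps 𝒱}

/-- The variety has a zero-cycle of nonzero degree. -/
def HasPoint (Z : 𝒱.Obj) : Prop := ∃ y, Z.IsCyc Z.dim y ∧ Z.V.degCycle y ≠ 0

/-- The centre of a blow-up: it has a zero-cycle of nonzero degree, and an ample divisor if it is a
surface. -/
def IsCentre (ops : CycleOps 𝒱) (Z : 𝒱.Obj) : Prop :=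
  HasPoint Z ∧ (Z.dim = 2 → ∃ A, IsSurfacePolarization ops Z A)

/-- `X'` is the blow-up of `X` in a smooth point, curve or surface. -/
def IsBlowupOf (W : WeilCohomology.{u, v} ops) (X' X : 𝒱.Obj) : Prop :=
  ∃ (Z E : 𝒱.Obj) (π : X' ⟶ X) (i : Z ⟶ X) (j : E ⟶ X') (g : E ⟶ Z) (h : E.Cycles),
    Blowup W π i j g h ∧ IsCentre ops Z

/-- `Y` covers `X`: there is a morphism `Y → X` of positive degree such that the pull-back of a
polarization of `X` is a polarization of `Y`. -/
def Covers (W : WeilCohomology.{u, v} ops) (Y X : 𝒱.Obj) : Prop :=
  ∃ (f : Y ⟶ X) (d : ℚ) (D : X.Cycles), Cover W f d ∧ IsPolarization ops X D ∧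
    IsPolarization ops Y (ops.pull f D)

/-- One step from the fourfold `Y` to the fourfold `X` (both with polarizations): `Y` is a blow-up
of `X`, or `X` is a blow-up of `Y`, or `Y` covers `X`. -/
def Step (W : WeilCohomology.{u, v} ops) (Y X : 𝒱.Obj) : Prop :=
  (∃ D, IsPolarization ops Y D) ∧ (∃ D, IsPolarization ops X D) ∧
    (IsBlowupOf W Y X ∨ IsBlowupOf W X Y ∨ Covers W Y X)

/-- The fourfold `Y` dominates the fourfold `X`: there is a chain of blow-ups, blow-downs and
coverings from `Y` to `X`. -/
def Dominates (W : WeilCohomology.{u, v} ops) (Y X : 𝒱.Obj) : Prop :=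
  Relation.ReflTransGen (Step W) Y X

/-- The numerical conjecture holds for the fourfold `Y` and one of its polarizations. -/
def HoldsOnce (ops : CycleOps 𝒱) (Y : 𝒱.Obj) : Prop :=
  ∃ D, IsPolarization ops Y D ∧ HodgeNum ops Y D

/-- The fourfold `Y` is a projective line bundle over a threefold. -/
def IsRuled (W : WeilCohomology.{u, v} ops) (Y : 𝒱.Obj) : Prop :=
  ∃ (T : 𝒱.Obj) (f : Y ⟶ T) (h D : Y.Cycles), LineBundle W f h ∧ HasPoint T ∧
    IsPolarization ops Y D

/-- The fourfold `Y` has a fibration in curves `f` over a threefold such that `z ^ 2 ≥ 0` for all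
cycles `z` of codimension two with `f_* z` numerically trivial. -/
def HasSemipositiveFibration (W : WeilCohomology.{u, v} ops) (Y : 𝒱.Obj) : Prop :=
  ∃ (T : 𝒱.Obj) (f : Y ⟶ T) (D : Y.Cycles), Fibration W f ∧ HasPoint T ∧
    IsPolarization ops Y D ∧
    ∀ z, Y.IsCyc 2 z → NumTrivial ops T 1 (ops.push f z) → 0 ≤ inter ops z z

/-- The fourfold `Y` has a fibration in curves `f` over a threefold of Prym type: for a surface
`S` with a polarization `A` and all cycles `z` of codimension two on `Y` with `f_* z` numerically
trivial one has `z ^ 2 = - 2 y ^ 2` for a divisor `y` on `S` with `A y = 0`. -/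
def HasPrymFibration (W : WeilCohomology.{u, v} ops) (Y : 𝒱.Obj) : Prop :=
  ∃ (T S : 𝒱.Obj) (f : Y ⟶ T) (D : Y.Cycles) (A : S.Cycles), Fibration W f ∧ HasPoint T ∧
    IsPolarization ops Y D ∧ IsSurfacePolarization ops S A ∧
    ∀ z, Y.IsCyc 2 z → NumTrivial ops T 1 (ops.push f z) →
      ∃ y, S.IsCyc 1 y ∧ inter ops A y = 0 ∧ inter ops z z = -2 * inter ops y y

/-- The conjecture for `Y` and one polarization implies the conjecture for `Y` and every other
one. -/
lemma indep (W : WeilCohomology.{u, v} ops) {Y : 𝒱.Obj} (h : HoldsOnce ops Y) {D : Y.Cycles}
    (hD : IsPolarization ops Y D) : HodgeNum ops Y D := by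
  obtain ⟨D', hD', h'⟩ := h
  exact (hodgeNum_indep W hD' hD).1 h'

lemma step_holds {W : WeilCohomology.{u, v} ops} {Y X : 𝒱.Obj} (hs : Step W Y X)
    (h : HoldsOnce ops Y) : HoldsOnce ops X := by
  obtain ⟨⟨D', hD'⟩, ⟨D, hD⟩, hs⟩ := hs
  have hY := indep W h hD'
  refine ⟨D, hD, ?_⟩
  rcases hs with hs | hs | hs
  · obtain ⟨Z, E, π, i, j, g, e, hB, hZ⟩ := hs
    exact (hodgeNum_blowup hB.props hD.dim hZ.1 hZ.2 hD hD').2 hY
  · obtain ⟨Z, E, π, i, j, g, e, hB, hZ⟩ := hs
    exact (hodgeNum_blowup hB.props hD'.dim hZ.1 hZ.2 hD' hD).1 hY
  · obtain ⟨f, d, A, hf, hA, hfA⟩ := hs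
    exact indep W ⟨A, hA, hodgeNum_cover hf.props hA.dim hA.cyc hfA hD' hY⟩ hD

lemma dominates_holds {W : WeilCohomology.{u, v} ops} {Y X : 𝒱.Obj} (hs : Dominates W Y X)
    (h : HoldsOnce ops Y) : HoldsOnce ops X := by
  induction hs with
  | refl => exact h
  | tail _ hs ih => exact step_holds hs ih

/-- **The standard conjecture of Hodge type for fourfolds**: it holds for `X` and every
polarization `D` if `X` is dominated by a fourfold `Y` for which it holds, or by a projective line
bundle over a threefold, or by a fibration in curves over a threefold which is semipositive or of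
Prym type. -/
theorem result {k : Type u} [Field k] {𝒱 : VarClass k} {ops : CycleOps 𝒱}
    (W : WeilCohomology.{u, v} ops) (Y X : 𝒱.Obj) (D : X.Cycles) (hYX : Dominates W Y X)
    (hD : IsPolarization ops X D)
    (hY : HoldsOnce ops Y ∨ IsRuled W Y ∨ HasSemipositiveFibration W Y ∨ HasPrymFibration W Y) :
    HodgeNum ops X D ∧ (HomEqNumIn W X 3 → (HodgeHom W X D ↔ HomEqNumIn W X 2)) := by
  have h : HoldsOnce ops Y := by
    rcases hY with hY | hY | hY | hY
    · exact hY
    · obtain ⟨T, f, e, D', hf, hT, hD'⟩ := hY
      exact ⟨D', hD', hodgeNum_line hf.props hD'.dim hT hD'⟩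
    · obtain ⟨T, f, D', hf, hT, hD', hpos⟩ := hY
      exact ⟨D', hD', hodgeNum_fibration hf.props hD'.dim hT hpos hD'⟩
    · obtain ⟨T, S, f, D', A, hf, hT, hD', hA, hp⟩ := hY
      exact ⟨D', hD', hodgeNum_prym hf.props hD'.dim hT hA hp hD'⟩
  have hX := indep W (dominates_holds hYX h) hD
  exact ⟨hX, fun hC => ⟨fun h' => ((hodgeHom_iff_num hD hC).1 h').2,
    fun h' => (hodgeHom_iff_num hD hC).2 ⟨hX, h'⟩⟩⟩

end Pool.Agent.Results.MP_361a6f_ag.BirationalFourfolds
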