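import Pool.Agent.Q70.HT.Fujiki

/-!
# The standard conjecture of Hodge type for products of divisors on varieties with a Fujiki relation

Let `X` be a smooth projective variety of dimension `2 n ≥ 2` over any algebraically closed field (more
generally an object of a class of smooth proper varieties with a Weil cohomology theory `W`), and let `D`
be a divisor on `X` with `D ^ (2 n) > 0` for which the Hodge index theorem holds (`HodgeIndex`: a
primitive divisor `z` which is not homologically trivial has `z · z · D ^ (2 n - 2) < 0`; this is a known
theorem for ample divisors, in all characteristics). Suppose that the degree of the products of divisors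
is given by a quadratic form `q` on the divisors: `z ^ (2 n) = c * q(z) ^ n` for all divisors `z`, with
a rational number `c`. This is the relation of Fujiki; it holds for irreducible holomorphic symplectic
varieties (`q` is the form of Beauville and Bogomolov), for surfaces (`n = 1`), and, by
specialization of `H ^ 2`, for the smooth reductions of holomorphic symplectic varieties in
characteristic `p`, where the Picard number is usually larger than that of all liftings (the divisors
do not lift together, and nothing is assumed about liftings, about the Frobenius endomorphism or about
the Tate conjecture; supersingular varieties are included).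

**Theorem.** Let `z` be an algebraic cycle of codimension `j ≤ n` on `X` whose cohomology class is a
combination, with coefficients in the coefficient field of the cohomology, of products of `j`
divisors, and let this class be different from zero. Then `z` is not numerically trivial; and if its
class is primitive for `D` then `(-1) ^ j * (z · z · D ^ (2 n - 2 j)) > 0`: the standard conjectures of
Hodge type and `D` hold on `X` for these cycles. So they hold for all cycles of codimension at most `n` on
`X` if the algebraic classes are generated by divisors.

The problem file lists as known the cases `j = 0` and `j = 1` and dimension at most three: the theorem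
gives all `2 ≤ j ≤ n`. The proof (mostly in the starting tree, `Pool.Agent.Y103.Fj`, where it is not
used in a hand-in of its own; the starting hand-in `HyperkaehlerProducts` is about finite fields and
assumes that the Frobenius eigenvalues have simple spectrum and satisfy no unexpected multiplicative
relations): the relation determines all the intersection numbers of products of divisors, so that the
form in codimension `j` depends only on the signature of `q`; it is compared with the forms on harmonic
polynomials. New here: the sign of `q` and `c` is not prescribed, and only the Hodge index theorem for
divisors is used.
-/

set_option autoImplicit false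

open CategoryTheory AlgebraicGeometry

universe u v

namespace Pool.Agent.Results.MP_361a6f_ag.FujikiDivisors

open Pool.Agent.H914 Pool.Agent.H914.VarClass Pool.Agent.H914.VarClass.Obj Pool.Agent.Q70.HT

/-- **The standard conjectures of Hodge type and `D` for products of divisors** on a variety of
dimension `2 n` on which the degree of `z ^ (2 n)` is `c * q(z) ^ n` for all divisors `z`. -/
theorem result {k : Type u} [Field k] {𝒱 : VarClass k} {ops : CycleOps 𝒱}
    (W : WeilCohomology.{u, v} ops) (X : 𝒱.Obj) (n : ℕ) (hn : X.dim = 2 * n) (hn1 : 1 ≤ n)
    (D : X.Cycles) (hD : X.IsCyc 1 D) (hdeg : 0 < X.V.degCycle (divPow ops D X.dim X.V.fundCycle))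
    (hI : HodgeIndex W X D) (c : ℚ) (q : QuadraticForm ℚ X.Cycles)
    (hF : FujikiRelation ops X n c q) (j : ℕ) (hj : j ≤ n) (z : X.Cycles) (hz : X.IsCyc j z)
    (hzd : IsDivisorial W X j (W.cl X z)) (h0 : W.cl X z ≠ 0) :
    (W.cl X (divPow ops D (X.dim - 2 * j + 1) z) = 0 →
      0 < (-1 : ℚ) ^ j * X.V.degCycle (ops.mul z (divPow ops D (X.dim - 2 * j) z))) ∧
    ∃ w, X.IsCyc (X.dim - j) w ∧ X.V.degCycle (ops.mul z w) ≠ 0 :=
  main hn hn1 hD hdeg hI hF hj hz hzd h0

end Pool.Agent.Results.MP_361a6f_ag.FujikiDivisors
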