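import Mathlib
import Pool.Agent.Q70.HN.Hodge

/-!
# The standard conjecture of Hodge type for the products of abelian varieties with all varieties of
small Hodge numbers

Let `q = p ^ a` and let `A` be an **ordinary** abelian variety, of any dimension, over the field with
`q` elements, isogenous to a product of powers of abelian varieties with characteristic polynomials
of Frobenius `f i` (`i` in a finite set), the complex roots of `f i` being the conjugates of an
ordinary Weil number `π i` for `q` in a CM field `F i` (`IsPolyOf`). We suppose (the generic case; the
first condition is true, for example, if the Galois group of the normal closure of `F i` consists of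
all permutations of the embeddings compatible with the complex conjugation, or if only some
automorphism exchanges one embedding with its complex conjugate and fixes all the others):

* the functions `n` on the complex embeddings of `F i` with `n (conj φ) = - n φ` are an absolutely
  irreducible representation of the automorphisms of `ℂ` (`OddAbsolutelyIrreducible`), and there
  are no equivariant maps between those of `F i` and `F i'` for `i ≠ i'` (`Unrelated`).

Let `Z` be a smooth projective variety over the same field, and for each `w` let `h w` be numbers such
that the Newton polygon of the Frobenius endomorphism on `H ^ w (Z)` lies above the polygon with the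
slopes `i`, of multiplicity `h w i` (`HasHodgeNumbers`; the roots of the characteristic polynomial
have weight `w` by Deligne). By the theorems of Mazur and Ogus one can take the Hodge numbers
`h w i = h ^ (w - i) (Z, Ω ^ i)` if the crystalline cohomology of `Z` is torsion free and the Hodge
spectral sequence degenerates, and otherwise the Hodge numbers of any lift of `Z` to characteristic
zero. Let

  `spread w (h w) = ∑ i, h w i * (2 i - w) ^ 2 = ∑ h ^ (i, j) (i - j) ^ 2` (the sum over `i + j = w`).

**Theorem.** If for all `w` and `i` this number is less than the degree `[F i : ℚ]`, or `w` is even and
it is less than `2 [F i : ℚ]` (`SmallHodge`), then (`HodgeTypeFor`), over an algebraic closure of the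
field, for every ample divisor `D` on `A` and every divisor `B` on `Z` with hard Lefschetz, for
instance every ample one, **the standard conjecture of Hodge type holds for `A × Z` and the divisor
`D × Z + A × B`, in all codimensions, if and only if it holds for `Z` and `B`.**

For `dim Z ≤ 3` the conjecture for `Z` is the index theorem for divisors, so in this case it is true
for `A × Z`. For example let `F i` have the degree at least `2 g` for all `i` (the degree is
`2 dim (A i)` for the simple factors `A i` of `A`). For a surface `Z` the condition is (third part of
the theorem)

* `b_1 (Z) < 2 g` **and `p_g (Z) < g / 2`**; there is no condition on `h ^ (1, 1)`;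

so **the standard conjecture of Hodge type holds for `A ^ r × Z`, for all `r`, all `A` as above and all
such surfaces `Z`**, for example all K3 and Enriques surfaces if `g ≥ 3`. For threefolds there is the
additional condition `9 h ^ (3, 0) + h ^ (2, 1) < g`. In `HodgeType` positivity is stated for all
primitive classes of cycles which are not homologically trivial, so this contains the positivity for
the cycles modulo numerical equivalence. The eigenvalues of Frobenius on the cohomology of `Z` may be
related in any way with the fields `F i`. What is used of `A` are known theorems
(`IsPolarizedAbelian`): the cohomology is generated by `H^1`, on which Frobenius is diagonalizable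
(Weil), the theorem of Tate on divisors, the hard Lefschetz theorem, and the positivity for the
classes generated by classes of divisors (Weil, Milne). That all classes of cycles on `A` are of this
kind is a part of what is proved.

In the second part the `π i` are only not supersingular, and the sum of the squared deviations of the
Hodge slopes is to be smaller than that of the slopes of `π i` (`SmallFor`; for even `w` a factor two
is gained).

Relation to the starting files and to the results of this team. `AlmostAllAbelianTimes` (helper64, from
which the reduction to relations, `hodge_iff`, is taken) and `AllCMTypesTimes` (helper70) treat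
varieties `Z` unrelated to `A`, or of small rank. In `SmallSlopeDeviation` (MP_ffcd14_ag, helper70) the
condition is, for each single eigenvalue `α` of `Z`, that `α` is unrelated to `F i` or that the mean
square deviation of its slopes is small; the same criterion as here is used for the Tate conjecture
in `TimesSmallHodgeNumbers` (MP_021685_ag, helper70). New here: for the conjecture of Hodge type,
conditions on the Hodge numbers only, in particular surfaces whose transcendental eigenvalues have
small degree.

The proof. A multiplicative relation between an eigenvalue `α`, a power of `q` and conjugates of the
`π i` which is not trivial at `i` gives, by a second moment (Schur) argument for the slopes, that the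
mean square deviation of the slopes of `α` is at least that of `π i`, which is `1 / 4` (`1 / 2` for
even weight); and that `α` has at least `[F i : ℚ]` conjugates, because the exponents of the relation
are an odd function, whose conjugates span all odd functions, and their number is at most the degree
of `α`. So the sum of the squared deviations is at least `[F i : ℚ] / 4`. But it is at most
`spread w h / 4`, because the Newton polygon lies above the Hodge polygon (Abel summation). The rest is
the theory of Lefschetz of the starting files (TH132.A).
-/

set_option autoImplicit false

namespace Pool.Agent.Results.MP_361a6f_ag.TimesSmallHodgeNumbers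

open NumberField Module Polynomial Pool.Agent.Y137.MV Pool.Agent.Y137.SL Pool.Agent.Q70.SQ
  Pool.Agent.Q70.HN

/-- **The standard conjecture of Hodge type for `A × Z` is equivalent to the one for `Z`, for the
ordinary abelian varieties `A` over finite fields with absolutely irreducible, unrelated CM fields of
degree greater than `∑ h ^ (i, j) (i - j) ^ 2` (or half of this number, for even degree), where
`h ^ (i, j)` are the Hodge numbers of `Z`.** The second part is about Weil numbers which are not
ordinary, the third one evaluates the condition in low degrees. -/
theorem result :
    (∀ (p : ℕ) [Fact p.Prime] (a : ℕ) (I : Type) [Fintype I] (F : I → Type)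
      [∀ i, Field (F i)] [∀ i, NumberField (F i)] [∀ i, IsCMField (F i)] (π : ∀ i, F i)
      (f : I → ℤ[X]), 0 < a →
      (∀ i, π i * IsCMField.complexConj (F i) (π i) = (p : F i) ^ a) →
      (∀ i, OddAbsolutelyIrreducible (F i)) → (∀ i i', i ≠ i' → Unrelated (F i) (F i')) →
      (∀ i, IsOrdinary p a (π i)) → (∀ i, Pool.Agent.Y1.CT.IsPolyOf (π i) (f i)) →
      HodgeTypeFor (HasHodgeNumbersWith p a fun w h => ∀ i, SmallHodge w h (finrank ℚ (F i)))
        (p ^ a) f) ∧
    (∀ (p : ℕ) [Fact p.Prime] (a : ℕ) (I : Type) [Fintype I] (F : I → Type)
      [∀ i, Field (F i)] [∀ i, NumberField (F i)] [∀ i, IsCMField (F i)] (π : ∀ i, F i)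
      (f : I → ℤ[X]), 0 < a →
      (∀ i, π i * IsCMField.complexConj (F i) (π i) = (p : F i) ^ a) →
      (∀ i, OddAbsolutelyIrreducible (F i)) → (∀ i i', i ≠ i' → Unrelated (F i) (F i')) →
      (∀ i, HasOtherSlope p a (π i)) → (∀ i, Pool.Agent.Y1.CT.IsPolyOf (π i) (f i)) →
      HodgeTypeFor (HasHodgeNumbersWith p a fun w h => ∀ i, SmallFor p a π w h i) (p ^ a) f) ∧
    ∀ (h : ℕ → ℕ) (D : ℕ),
      (SmallHodge 1 h D ↔ h 0 + h 1 < D) ∧
      (h 2 = h 0 → (SmallHodge 2 h D ↔ 4 * h 0 < D)) ∧
      (h 3 = h 0 → h 2 = h 1 → (SmallHodge 3 h D ↔ 2 * (9 * h 0 + h 1) < D)) := by
  refine ⟨?_, ?_, ?_⟩
  · intro p _ a I _ F _ _ _ π f ha hw habs hun hord hf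
    exact hodgeTypeFor_mono (fun χ hχ => goodRoots_of_hodge ha (fun i => (habs i).1)
      (with_of_ordinary ha hord hχ))
      (hodgeTypeFor_of (Nat.one_lt_pow ha.ne' (Fact.out : p.Prime).one_lt)
      (noRel_good ha hw habs hun (fun i => other_of_ordinary ha (hord i)) f hf))
  · intro p _ a I _ F _ _ _ π f ha hw habs hun hns hf
    exact hodgeTypeFor_mono (fun χ hχ => goodRoots_of_hodge ha (fun i => (habs i).1) hχ)
      (hodgeTypeFor_of (Nat.one_lt_pow ha.ne' (Fact.out : p.Prime).one_lt)
      (noRel_good ha hw habs hun hns f hf))
  · intro h D
    refine ⟨?_, fun h2 => ?_, fun h3 h2 => ?_⟩
    · simp only [SmallHodge, spread, Finset.sum_range_succ, Finset.sum_range_zero]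
      have : ¬ Even 1 := by decide
      constructor
      · rintro (h1 | ⟨h1, -⟩)
        · push_cast at h1
          omega
        · exact absurd h1 this
      · intro h1
        left
        push_cast
        omega
    · simp only [SmallHodge, spread, Finset.sum_range_succ, Finset.sum_range_zero, h2]
      constructor
      · rintro (h1 | ⟨-, h1⟩) <;> push_cast at h1 <;> omega
      · intro h1
        right
        refine ⟨even_two, ?_⟩
        push_cast
        omega
    · simp only [SmallHodge, spread, Finset.sum_range_succ, Finset.sum_range_zero, h3, h2]
      have : ¬ Even 3 := by decide
      constructor
      · rintro (h1 | ⟨h1, -⟩)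
        · push_cast at h1
          omega
        · exact absurd h1 this
      · intro h1
        left
        push_cast
        omega

end Pool.Agent.Results.MP_361a6f_ag.TimesSmallHodgeNumbers
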